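import Mathlib

set_option autoImplicit false

namespace Pool.Agent.H43R3.DG.AbelCore

theorem abel (p k : ℕ) (hp : p.Prime) (A : Type) [CommGroup A] [Finite A] (hA : IsPGroup p A)
    (h : Nat.card {a : A // a ^ p = 1} ≤ p ^ k) :
    ∃ S : Finset A, S.card ≤ k ∧ Subgroup.closure (S : Set A) = ⊤ := by
  classical
  have : Fact p.Prime := ⟨hp⟩
  obtain ⟨ι, hι, n, hn, ⟨e⟩⟩ := CommGroup.equiv_prod_multiplicative_zmod_of_finite A
  have hne : ∀ i, NeZero (n i) := fun i => ⟨by have := hn i; omega⟩
  have hdiv : ∀ i, p ∣ n i := by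
    intro i
    have h1 : orderOf (e.symm (Pi.mulSingle i (Multiplicative.ofAdd (1 : ZMod (n i))))) = n i := by
      rw [MulEquiv.orderOf_eq]
      have h2 := orderOf_injective (MonoidHom.mulSingle (fun i => Multiplicative (ZMod (n i))) i)
        (fun a b hab => Pi.mulSingle_injective (M := fun i => Multiplicative (ZMod (n i))) i hab)
        (Multiplicative.ofAdd (1 : ZMod (n i)))
      rw [MonoidHom.mulSingle_apply] at h2
      rw [h2, orderOf_ofAdd_eq_addOrderOf, ZMod.addOrderOf_one]
    obtain ⟨j, hj⟩ := (IsPGroup.iff_orderOf.mp hA) (e.symm (Pi.mulSingle i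
      (Multiplicative.ofAdd (1 : ZMod (n i)))))
    rw [h1] at hj
    have hj0 : j ≠ 0 := by
      intro h0
      rw [h0, pow_zero] at hj
      have := hn i
      omega
    rw [hj]
    exact dvd_pow_self p hj0
  have hnp : ∀ i, p * (n i / p) = n i := fun i => Nat.mul_div_cancel' (hdiv i)
  have hpos : ∀ i, 0 < n i / p := by
    intro i
    have := hnp i
    have h1 := hn i
    rcases Nat.eq_zero_or_pos (n i / p) with h0 | h0
    · rw [h0] at this; omega
    · exact h0
  -- torsion
  have hcard : p ^ Fintype.card ι ≤ Nat.card {a : A // a ^ p = 1} := by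
    have h1 : Nat.card (ι → Fin p) = p ^ Fintype.card ι := by
      rw [Nat.card_eq_fintype_card, Fintype.card_fun, Fintype.card_fin]
    rw [← h1]
    let φ : (ι → Fin p) → {a : A // a ^ p = 1} := fun f =>
      ⟨e.symm (fun i => Multiplicative.ofAdd (((n i / p) * (f i : ℕ) : ℕ) : ZMod (n i))), by
        rw [← map_pow]
        have : (fun i => Multiplicative.ofAdd (((n i / p) * (f i : ℕ) : ℕ) : ZMod (n i))) ^ p = 1 := by
          funext i
          rw [Pi.pow_apply, ← ofAdd_nsmul, Pi.one_apply, ← ofAdd_zero]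
          congr 1
          rw [nsmul_eq_mul, ← Nat.cast_mul, ← mul_assoc, hnp i, Nat.cast_mul, ZMod.natCast_self,
            zero_mul]
        rw [this, map_one]⟩
    apply Nat.card_le_card_of_injective φ
    intro f g hfg
    have h2 := congrArg Subtype.val hfg
    have h3 := e.symm.injective h2
    funext i
    have h4 := congrFun h3 i
    have h5 : (((n i / p) * (f i : ℕ) : ℕ) : ZMod (n i)) = (((n i / p) * (g i : ℕ) : ℕ) : ZMod (n i)) :=
      Multiplicative.ofAdd.injective h4
    rw [ZMod.natCast_eq_natCast_iff'] at h5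
    have hlt : ∀ a : Fin p, (n i / p) * (a : ℕ) < n i := by
      intro a
      calc (n i / p) * (a : ℕ) < (n i / p) * p := Nat.mul_lt_mul_of_pos_left a.2 (hpos i)
        _ = n i := by rw [mul_comm]; exact hnp i
    rw [Nat.mod_eq_of_lt (hlt _), Nat.mod_eq_of_lt (hlt _)] at h5
    exact Fin.ext (Nat.eq_of_mul_eq_mul_left (hpos i) h5)
  have hle : Fintype.card ι ≤ k := (Nat.pow_le_pow_iff_right hp.one_lt).mp (hcard.trans h)
  refine ⟨Finset.univ.image (fun i => e.symm (Pi.mulSingle i
    (Multiplicative.ofAdd (1 : ZMod (n i))))), ?_, ?_⟩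
  · exact (Finset.card_image_le.trans (by rw [Finset.card_univ])).trans hle
  · rw [eq_top_iff]
    intro a _
    have h1 : a = ∏ i, e.symm (Pi.mulSingle i (e a i)) := by
      rw [← map_prod, Finset.univ_prod_mulSingle, e.symm_apply_apply]
    rw [h1]
    apply Subgroup.prod_mem
    intro i _
    have h2 : e a i = (Multiplicative.ofAdd (1 : ZMod (n i))) ^ (Multiplicative.toAdd (e a i)).val := by
      have := hne i
      rw [← ofAdd_nsmul, nsmul_eq_mul, mul_one, ZMod.natCast_zmod_val, ofAdd_toAdd]
    rw [h2]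
    have h3 : (Pi.mulSingle i ((Multiplicative.ofAdd (1 : ZMod (n i))) ^
        (Multiplicative.toAdd (e a i)).val) : (j : ι) → Multiplicative (ZMod (n j))) =
        (Pi.mulSingle i (Multiplicative.ofAdd (1 : ZMod (n i)))) ^
          (Multiplicative.toAdd (e a i)).val := by
      rw [Pi.mulSingle_pow]
    rw [h3, map_pow]
    apply Subgroup.pow_mem
    apply Subgroup.subset_closure
    simp

end Pool.Agent.H43R3.DG.AbelCore
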