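import Pool.Agent.H43R3.DG.Stmts

/-!
# Project H43-DG: assembly
-/

set_option autoImplicit false

open Finset

namespace Pool.Agent.H43R3.DG

open Pool.Agent.Helper835.Flags Pool.Agent.Helper835.Select Pool.Agent.Helper835.Primes

section Good

variable {G : Type} [Group G] {H : Fin 2 → Subgroup G}

theorem good_of (hH : H 0 ⊓ H 1 = ⊥) (hcomm : ∀ a ∈ H 0, ∀ b ∈ H 1, a * b = b * a) (t : G)
    (ht : ∀ i : Fin 2, ∀ u ∈ H i, u ≠ 1 → ∀ a ∈ H 0, ∀ b ∈ H 1, t⁻¹ * u * t = a * b →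
      a * b ∈ H i) : Good H t := by
  intro x hx
  obtain ⟨a, ha, b, hb, e1⟩ := hx 0 0
  obtain ⟨a', ha', b', hb', e2⟩ := hx 0 1
  obtain ⟨c, hc, d, hd, e3⟩ := hx 1 0
  obtain ⟨c', hc', d', hd', e4⟩ := hx 1 1
  have hb1 : b' = 1 := by
    have h1 : t⁻¹ * (a'⁻¹ * a) * t = b⁻¹ * b' := by
      have : t⁻¹ * (a'⁻¹ * a) * t = t⁻¹ * (a'⁻¹ * (a * t * b)) * b⁻¹ := by group
      rw [this, ← e1, e2, hcomm _ ((H 0).inv_mem hb) _ hb']; group
    by_cases hne : a'⁻¹ * a = 1
    · rw [hne, mul_one, inv_mul_cancel] at h1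
      have h3 : b' = b := (inv_mul_eq_one.1 h1.symm).symm
      exact mem_both hH (h3 ▸ hb) hb'
    · have h2 := ht 0 _ ((H 0).mul_mem ((H 0).inv_mem ha') ha) hne _ ((H 0).inv_mem hb) _ hb' h1
      have h3 : b' ∈ H 0 := by
        have := (H 0).mul_mem hb h2
        rwa [mul_inv_cancel_left] at this
      exact mem_both hH h3 hb'
  have hd1 : d = 1 := by
    have h1 : t⁻¹ * (c'⁻¹ * c) * t = d⁻¹ * d' := by
      have : t⁻¹ * (c'⁻¹ * c) * t = t⁻¹ * (c'⁻¹ * (c * t * d)) * d⁻¹ := by group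
      rw [this, ← e3, e4, hcomm _ ((H 0).inv_mem hd) _ hd']; group
    by_cases hne : c'⁻¹ * c = 1
    · rw [hne, mul_one, inv_mul_cancel] at h1
      have h3 : d = d' := inv_mul_eq_one.1 h1.symm
      exact mem_both hH hd (h3 ▸ hd')
    · have h2 := ht 1 _ ((H 1).mul_mem ((H 1).inv_mem hc') hc) hne _ ((H 0).inv_mem hd) _ hd' h1
      have h3 : d⁻¹ ∈ H 1 := by
        have := (H 1).mul_mem h2 ((H 1).inv_mem hd')
        rwa [mul_inv_cancel_right] at this
      have h4 := mem_both hH hd ((H 1).inv_mem_iff.1 h3)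
      exact h4
  rw [hb1, mul_one] at e2
  rw [hd1, mul_one] at e3
  have h5 : a' = c := mul_right_cancel (e2.symm.trans e3)
  have h6 : a' = 1 := mem_both hH ha' (h5 ▸ hc)
  rw [e2, h6, one_mul]

end Good

section Pairs

variable {G : Type} [Group G]

theorem exists_pair' (hAVG : TaskAVG) [Fintype G] (p : ℕ) [Fact p.Prime] (V : Type)
    [AddCommGroup V] [Module (ZMod p) V] [Finite V] (ι : Multiplicative V →* G)
    (hι : Function.Injective ι) (k s : ℕ)
    (hcard : Nat.card V = p ^ s) (hs : 3 * k + 6 ≤ s) :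
    ∃ H : Fin 2 → Subgroup G, H 0 ⊓ H 1 = ⊥ ∧ (∀ i, Nat.card (H i) = p ^ k) ∧
      ∃ b, 16 * b ≤ Fintype.card G ∧
        (open Classical in (Finset.univ.filter fun t : G => ¬ Good H t).card ≤ b) := by
  classical
  haveI : Fintype V := Fintype.ofFinite _
  have hV : Fintype.card V = p ^ s := by
    rw [← Nat.card_eq_fintype_card]; exact hcard
  let j : V → G := fun v => ι (Multiplicative.ofAdd v)
  have hj : Function.Injective j := fun a b h => Multiplicative.ofAdd.injective (hι h)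
  have hj0 : j 0 = 1 := map_one ι
  have hja : ∀ v w, j (v + w) = j v * j w := fun v w => map_mul ι _ _
  have hjn : ∀ v, j (-v) = (j v)⁻¹ := fun v => map_inv ι _
  let N : V → V → ℕ := fun u v => (Finset.univ.filter fun t : G => t⁻¹ * j u * t = j v).card
  have hN : ∀ u, ∑ v, N u v ≤ Fintype.card G := by
    intro u
    rw [← Finset.card_biUnion]
    · exact Finset.card_le_univ _
    · intro v _ w _ hvw
      rw [Function.onFun, Finset.disjoint_left]
      intro t h1 h2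
      simp only [Finset.mem_filter, Finset.mem_univ, true_and] at h1 h2
      exact hvw (hj (h1.symm.trans h2))
  obtain ⟨U, hU, hUc, B, hB, hB2⟩ := hAVG p V N (Fintype.card G) k s hV hN hs
  let H : Fin 2 → Subgroup G := fun i =>
    { carrier := {g | ∃ v ∈ U i, j v = g}
      one_mem' := ⟨0, (U i).zero_mem, hj0⟩
      mul_mem' := by
        rintro _ _ ⟨v, hv, rfl⟩ ⟨w, hw, rfl⟩
        exact ⟨v + w, (U i).add_mem hv hw, hja v w⟩
      inv_mem' := by
        rintro _ ⟨v, hv, rfl⟩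
        exact ⟨-v, (U i).neg_mem hv, hjn v⟩ }
  have hH : H 0 ⊓ H 1 = ⊥ := by
    rw [eq_bot_iff]
    rintro g ⟨⟨v, hv, h1⟩, ⟨w, hw, h2⟩⟩
    have h3 : v = w := hj (h1.trans h2.symm)
    have h4 : v ∈ U 0 ⊓ U 1 := ⟨hv, h3 ▸ hw⟩
    rw [hU, Submodule.mem_bot] at h4
    rw [Subgroup.mem_bot, ← h1, h4, hj0]
  refine ⟨H, hH, ?_, ∑ z ∈ B, N z.1 z.2, hB2, ?_⟩
  · intro i
    rw [← hUc i]
    refine (Nat.card_congr (Equiv.ofBijective
      (fun u : U i => (⟨j u.1, u.1, u.2, rfl⟩ : H i)) ⟨?_, ?_⟩)).symm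
    · intro u u' h
      exact Subtype.ext (hj (congrArg Subtype.val h))
    · rintro ⟨g, v, hv, rfl⟩
      exact ⟨⟨v, hv⟩, rfl⟩
  · have hcom : ∀ v w : V, j v * j w = j w * j v := by
      intro v w
      rw [← hja, ← hja, add_comm]
    have hsub : (Finset.univ.filter fun t : G => ¬ Good H t) ⊆
        B.biUnion fun z => Finset.univ.filter fun t : G => t⁻¹ * j z.1 * t = j z.2 := by
      intro t ht
      simp only [Finset.mem_filter, Finset.mem_univ, true_and] at ht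
      have h1 : ¬ ∀ i : Fin 2, ∀ u ∈ H i, u ≠ 1 → ∀ a ∈ H 0, ∀ b ∈ H 1, t⁻¹ * u * t = a * b →
          a * b ∈ H i := by
        intro h
        refine ht (good_of hH ?_ t h)
        rintro _ ⟨v, _, rfl⟩ _ ⟨w, _, rfl⟩
        exact hcom v w
      push Not at h1
      obtain ⟨i, _, ⟨u, hu, rfl⟩, hu1, _, ⟨a, ha, rfl⟩, _, ⟨b, hb, rfl⟩, hab, hn⟩ := h1
      rw [Finset.mem_biUnion]
      refine ⟨(u, a + b), ?_, ?_⟩
      · apply hB _ _ i hu
        · intro h
          exact hu1 (by rw [h, hj0])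
        · exact Submodule.add_mem_sup ha hb
        · intro h
          exact hn ⟨a + b, h, hja a b⟩
      · simp only [Finset.mem_filter, Finset.mem_univ, true_and]
        rw [hab, hja]
    refine (Finset.card_le_card hsub).trans ?_
    exact Finset.card_biUnion_le

theorem exists_pair (hAVG : TaskAVG) [Fintype G] (p : ℕ) [Fact p.Prime] (E : Subgroup G)
    (hc : ∀ a ∈ E, ∀ b ∈ E, a * b = b * a) (he : ∀ a ∈ E, a ^ p = 1) (k s : ℕ)
    (hcard : Nat.card E = p ^ s) (hs : 3 * k + 6 ≤ s) :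
    ∃ H : Fin 2 → Subgroup G, H 0 ⊓ H 1 = ⊥ ∧ (∀ i, Nat.card (H i) = p ^ k) ∧
      ∃ b, 16 * b ≤ Fintype.card G ∧
        (open Classical in (Finset.univ.filter fun t : G => ¬ Good H t).card ≤ b) := by
  letI I1 : CommGroup E := { (inferInstance : Group E) with
    mul_comm := fun a b => Subtype.ext (hc a.1 a.2 b.1 b.2) }
  letI I2 : AddCommGroup (Additive E) := @Additive.addCommGroup E I1
  letI I3 : Module (ZMod p) (Additive E) := AddCommGroup.zmodModule (fun x => by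
    have h1 := he (Additive.toMul x).1 (Additive.toMul x).2
    have h2 : (Additive.toMul x) ^ p = 1 := Subtype.ext h1
    exact h2)
  haveI : Finite (Additive E) := inferInstanceAs (Finite E)
  exact @exists_pair' G _ hAVG _ p _ (Additive E) I2 I3 _
    { toFun := fun x => (Additive.toMul (Multiplicative.toAdd x) : E).1
      map_one' := rfl
      map_mul' := fun _ _ => rfl } (fun x y h => Subtype.ext h) k s hcard hs

theorem core2 (hAVG : TaskAVG) (K : ℕ) (hK : 5 ≤ K) (m₀ : ℕ)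
    (hm₀ : ∀ m ≥ m₀, 2 ^ 20 * (4 * (m + 1)) ^ 14 ≤ 2 ^ m)
    (G : Type) [Group G] [Finite G] (p : ℕ) [hp : Fact p.Prime] (E : Subgroup G)
    (hc : ∀ a ∈ E, ∀ b ∈ E, a * b = b * a) (he : ∀ a ∈ E, a ^ p = 1) (s : ℕ)
    (hcard : Nat.card E = p ^ s) (hs : 14 * K + 6 + m₀ ≤ s) :
    ∃ (a b : ℕ), a * K ≤ Nat.card G ∧ b * K ≤ Nat.card G ∧
    ∃ (W : Type) (_ : Finite W) (X : SimpleGraph W), Nonempty ((X ≃g X) ≃* G) ∧
      Nat.card W = 5 * (a + b) + 5 := by
  classical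
  have : Fintype G := Fintype.ofFinite G
  set n := Nat.card G with hn
  have hnf : Fintype.card G = n := by rw [hn, Nat.card_eq_fintype_card]
  have hnpos : 0 < n := Nat.card_pos
  have hp2 : 2 ≤ p := hp.out.two_le
  obtain ⟨H, hH, hHc, b, hb, hbad⟩ := exists_pair hAVG p E hc he K s hcard (by omega)
  set P := p ^ K with hP
  have hP2 : 2 ≤ P := by
    calc 2 ≤ p := hp2
      _ = p ^ 1 := (pow_one p).symm
      _ ≤ p ^ K := Nat.pow_le_pow_right (by omega) (by omega)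
  have hPK : K ≤ P := by
    calc K ≤ 2 ^ K := Nat.lt_two_pow_self.le
      _ ≤ p ^ K := Nat.pow_le_pow_left hp2 K
  have hsn : p ^ s ≤ n := by
    rw [← hcard, hn]
    exact Subgroup.card_le_card_group E
  have hPn : P ^ 14 ≤ n := by
    calc P ^ 14 = p ^ (K * 14) := by rw [hP, ← pow_mul]
      _ ≤ p ^ s := Nat.pow_le_pow_right (by omega) (by omega)
      _ ≤ n := hsn
  have hlog : m₀ ≤ Nat.log 2 n := by
    have h1 : 2 ^ s ≤ n := (Nat.pow_le_pow_left hp2 s).trans hsn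
    have h3 := Nat.le_log_of_pow_le (by norm_num) h1
    omega
  have hsz := arith_size hP2 (Nat.pow_log_le_self 2 hnpos.ne') hPn (hm₀ _ hlog)
  have hi : ∀ i, (H i).index * P = n := by
    intro i
    rw [← hHc i, mul_comm]; exact (H i).card_mul_index
  have hV : 5 < (H 0).index + (H 1).index := by
    have h1 : p ^ (s - K) * P ≤ (H 0).index * P := by
      rw [hi 0, hP, ← pow_add, Nat.sub_add_cancel (by omega)]; exact hsn
    have h2 : p ^ (s - K) ≤ (H 0).index := Nat.le_of_mul_le_mul_right h1 (by omega)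
    have h3 : 2 ^ 6 ≤ p ^ (s - K) := by
      calc 2 ^ 6 ≤ p ^ 6 := Nat.pow_le_pow_left hp2 6
        _ ≤ p ^ (s - K) := Nat.pow_le_pow_right (by omega) (by omega)
    omega
  refine ⟨(H 0).index, (H 1).index, ?_, ?_, ?_⟩
  · rw [← hi 0]
    exact Nat.mul_le_mul_left _ hPK
  · rw [← hi 1]
    exact Nat.mul_le_mul_left _ hPK
  · apply exists_graph_of_good hH b hbad _ hV
    have hHF : (HF H).card ≤ 2 * P := by
      have := card_HF_le (H := H)
      rw [hHc 0, hHc 1] at this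
      omega
    have hle : ((HF H).card + 4 * (Nat.log 2 (Fintype.card G) + 1)) ^ 7 ≤
        (2 * P + 4 * (Nat.log 2 n + 1)) ^ 7 := by
      rw [hnf]
      exact Nat.pow_le_pow_left (by omega) 7
    rw [hnf] at hle hb ⊢
    omega

/-- The theorem for groups with large elementary abelian subgroups. -/
theorem mainE (hAVG : TaskAVG) (ε : ℝ) (hε : 0 < ε) : ∃ s₀ : ℕ, ∀ (G : Type) [Group G] [Finite G]
    (p : ℕ) [Fact p.Prime] (E : Subgroup G), (∀ a ∈ E, ∀ b ∈ E, a * b = b * a) →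
    (∀ a ∈ E, a ^ p = 1) → ∀ s, s₀ ≤ s → Nat.card E = p ^ s →
    ∃ (V : Type) (_ : Finite V) (X : SimpleGraph V), Nonempty ((X ≃g X) ≃* G) ∧
      (Nat.card V : ℝ) < ε * Nat.card G := by
  obtain ⟨m₀, hm₀⟩ := exists_m0
  let K := max 5 ⌈20 / ε⌉₊
  refine ⟨14 * K + 6 + m₀ + ⌈10 / ε⌉₊, ?_⟩
  intro G _ _ p hp E hc he s hs hcard
  obtain ⟨a, b, ha, hb, W, hW, X, hX, hcW⟩ := core2 hAVG K (le_max_left _ _) m₀ hm₀ G p E hc he s
    hcard (by omega)
  refine ⟨W, hW, X, hX, ?_⟩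
  set n := Nat.card G with hn
  have hnpos : 0 < n := Nat.card_pos
  have hK : 20 / ε ≤ K := (Nat.le_ceil _).trans (by exact_mod_cast le_max_right _ _)
  have hK' : 20 ≤ K * ε := by rwa [div_le_iff₀ hε] at hK
  have h1 : s < n := by
    calc s < 2 ^ s := Nat.lt_two_pow_self
      _ ≤ p ^ s := Nat.pow_le_pow_left hp.out.two_le s
      _ = Nat.card E := hcard.symm
      _ ≤ n := Subgroup.card_le_card_group E
  have h3 : 10 / ε < n := by
    have h4 : (10 / ε) ≤ (⌈10 / ε⌉₊ : ℝ) := Nat.le_ceil _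
    have h5 : (⌈10 / ε⌉₊ : ℝ) < n := by
      exact_mod_cast (show ⌈10 / ε⌉₊ < n by omega)
    linarith
  have h3' : 10 < n * ε := by rwa [div_lt_iff₀ hε] at h3
  have ha' : (a : ℝ) * K ≤ n := by exact_mod_cast ha
  have hb' : (b : ℝ) * K ≤ n := by exact_mod_cast hb
  have ha2 : (a : ℝ) * 20 ≤ n * ε := by
    calc (a : ℝ) * 20 ≤ a * (K * ε) := by
          apply mul_le_mul_of_nonneg_left hK' (Nat.cast_nonneg a)
      _ = (a * K) * ε := by ring
      _ ≤ n * ε := mul_le_mul_of_nonneg_right ha' hε.le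
  have hb2 : (b : ℝ) * 20 ≤ n * ε := by
    calc (b : ℝ) * 20 ≤ b * (K * ε) := by
          apply mul_le_mul_of_nonneg_left hK' (Nat.cast_nonneg b)
      _ = (b * K) * ε := by ring
      _ ≤ n * ε := mul_le_mul_of_nonneg_right hb' hε.le
  rw [hcW]
  push_cast
  nlinarith

/-- The full theorem. -/
theorem mainD (hAVG : TaskAVG) (hSYL : TaskSYL) (hR : RANK) (ε : ℝ) (hε : 0 < ε) :
    ∃ N : ℕ, ∀ (G : Type) [Group G] [Finite G],
    (∀ S : Finset G, Subgroup.closure (S : Set G) = ⊤ → N ≤ S.card) →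
    ∃ (V : Type) (_ : Finite V) (X : SimpleGraph V), Nonempty ((X ≃g X) ≃* G) ∧
      (Nat.card V : ℝ) < ε * Nat.card G := by
  obtain ⟨s₀, h1⟩ := mainE hAVG ε hε
  obtain ⟨N₁, h2⟩ := main ε hε
  obtain ⟨f, hf⟩ := hR
  refine ⟨f s₀ * N₁ + 1, ?_⟩
  intro G _ _ hd
  by_cases hω : N₁ ≤ (Nat.card G).primeFactors.card
  · exact h2 G hω
  · by_cases hP : ∀ (p : ℕ) [Fact p.Prime] (P : Sylow p G), GenBy P (f s₀)
    · exfalso
      obtain ⟨S, hS, hS2⟩ := hSYL G (f s₀) hP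
      have h3 := hd S hS2
      have h4 : f s₀ * (Nat.card G).primeFactors.card ≤ f s₀ * N₁ :=
        Nat.mul_le_mul_left _ (by omega)
      omega
    · push Not at hP
      obtain ⟨p, hp, P, hP⟩ := hP
      rcases hf s₀ p P P.isPGroup' with h3 | ⟨E, hE1, hE2, hE3⟩
      · exact absurd h3 hP
      · refine h1 G p (E.map P.1.subtype) ?_ ?_ s₀ le_rfl ?_
        · rintro _ ⟨a, ha, rfl⟩ _ ⟨b, hb, rfl⟩
          rw [← map_mul, ← map_mul, hE1 a ha b hb]
        · rintro _ ⟨a, ha, rfl⟩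
          rw [← map_pow, hE2 a ha, map_one]
        · rw [← hE3]
          exact (Nat.card_congr (E.equivMapOfInjective _ P.1.subtype_injective).toEquiv).symm

end Pairs

end Pool.Agent.H43R3.DG
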