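import Pool.Agent.H43R3.DG.Stmts
import Pool.Agent.H43R3.DG.AbelCore

set_option autoImplicit false

namespace Pool.Agent.H43R3.DG.ABEL

theorem taskABEL : TaskABEL := by
  intro p hp A _ _ hA k h
  exact Pool.Agent.H43R3.DG.AbelCore.abel p k hp.out A hA h

end Pool.Agent.H43R3.DG.ABEL
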