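import Pool.Agent.H43R3.DG.Stmts

set_option autoImplicit false

open Finset

namespace Pool.Agent.H43R3.DG

theorem taskSYL : TaskSYL := by
  intro G _ _ r h
  classical
  have h1 : ∀ p : ℕ, ∃ T : Finset G, T.card ≤ r ∧
      (p.Prime → ¬ p ∣ (Subgroup.closure (T : Set G)).index) := by
    intro p
    by_cases hp : p.Prime
    · haveI : Fact p.Prime := ⟨hp⟩
      let P : Sylow p G := default
      obtain ⟨S, hS, hcl⟩ := h p P
      refine ⟨S.image Subtype.val, Finset.card_image_le.trans hS, fun _ hdvd => ?_⟩
      have h2 : (P : Subgroup G) ≤ Subgroup.closure ((S.image Subtype.val : Finset G) : Set G) := by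
        have h3 : Subgroup.map (P : Subgroup G).subtype (Subgroup.closure (S : Set P)) =
            (P : Subgroup G) := by
          rw [hcl, ← MonoidHom.range_eq_map, Subgroup.range_subtype]
        conv_lhs => rw [← h3]
        rw [MonoidHom.map_closure]
        apply Subgroup.closure_mono
        intro x hx
        obtain ⟨y, hy, rfl⟩ := hx
        rw [Finset.coe_image]
        exact ⟨y, hy, rfl⟩
      exact P.not_dvd_index (hdvd.trans (Subgroup.index_dvd_of_le h2))
    · exact ⟨∅, by simp, fun h => absurd h hp⟩
  choose T hT hTi using h1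
  refine ⟨(Nat.card G).primeFactors.biUnion T, ?_, ?_⟩
  · refine (Finset.card_biUnion_le).trans ?_
    refine (Finset.sum_le_sum fun p _ => hT p).trans ?_
    rw [Finset.sum_const, smul_eq_mul, mul_comm]
  · by_contra hne
    have h4 : (Subgroup.closure (((Nat.card G).primeFactors.biUnion T : Finset G) : Set G)).index ≠ 1 :=
      fun h => hne (Subgroup.index_eq_one.1 h)
    obtain ⟨p, hp, hpd⟩ := Nat.exists_prime_and_dvd h4
    have h5 : p ∈ (Nat.card G).primeFactors := by
      rw [Nat.mem_primeFactors]
      exact ⟨hp, hpd.trans (Subgroup.index_dvd_card _), Nat.card_pos.ne'⟩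
    refine hTi p hp (hpd.trans (Subgroup.index_dvd_of_le ?_))
    apply Subgroup.closure_mono
    intro x hx
    exact Finset.mem_coe.2 (Finset.mem_biUnion.2 ⟨p, h5, hx⟩)

end Pool.Agent.H43R3.DG
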