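import Pool.Agent.Helper835.PrimesFinal

/-!
# Project H43-DG (MP_9009ba_co Q2): groups needing many generators have small graphs
-/

set_option autoImplicit false

open Finset

namespace Pool.Agent.H43R3.DG

/-- `G` is generated by at most `k` elements. -/
def GenBy (G : Type) [Group G] (k : ℕ) : Prop :=
  ∃ S : Finset G, S.card ≤ k ∧ Subgroup.closure (S : Set G) = ⊤

/-- TASK AVG: averaging over pairs of subspaces. -/
def TaskAVG : Prop := ∀ (p : ℕ) [Fact p.Prime] (V : Type) [AddCommGroup V] [Module (ZMod p) V]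
  [Fintype V] [DecidableEq V] (N : V → V → ℕ) (n k s : ℕ), Fintype.card V = p ^ s →
  (∀ u, ∑ v, N u v ≤ n) → 3 * k + 6 ≤ s →
  ∃ U : Fin 2 → Submodule (ZMod p) V, U 0 ⊓ U 1 = ⊥ ∧ (∀ i, Nat.card (U i) = p ^ k) ∧
    ∃ B : Finset (V × V), (∀ u v : V, ∀ i, u ∈ U i → u ≠ 0 → v ∈ U 0 ⊔ U 1 → v ∉ U i →
      (u, v) ∈ B) ∧ 16 * ∑ z ∈ B, N z.1 z.2 ≤ n

/-- TASK SYL: few primes and few generators of the Sylow subgroups. -/
def TaskSYL : Prop := ∀ (G : Type) [Group G] [Finite G] (r : ℕ),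
  (∀ (p : ℕ) [Fact p.Prime] (P : Sylow p G), GenBy P r) →
  GenBy G (r * (Nat.card G).primeFactors.card)

/-- TASK MAX: a self-centralizing abelian normal subgroup. -/
def TaskMAX : Prop := ∀ (p : ℕ) [Fact p.Prime] (P : Type) [Group P] [Finite P], IsPGroup p P →
  ∃ A : Subgroup P, A.Normal ∧ (∀ a ∈ A, ∀ b ∈ A, a * b = b * a) ∧
    Subgroup.centralizer (A : Set P) ≤ A

/-- TASK ABEL: the number of generators of a finite abelian `p`-group. -/
def TaskABEL : Prop := ∀ (p : ℕ) [Fact p.Prime] (A : Type) [CommGroup A] [Finite A], IsPGroup p A →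
  ∀ k : ℕ, Nat.card {a : A // a ^ p = 1} ≤ p ^ k → GenBy A k

/-- TASK AUT: the number of generators of `p`-groups of automorphisms of finite abelian
`p`-groups of bounded rank is bounded, uniformly in `p`. -/
def TaskAUT : Prop := ∃ g : ℕ → ℕ, ∀ (p : ℕ) [Fact p.Prime] (A : Type) [CommGroup A] [Finite A],
  IsPGroup p A → ∀ k : ℕ, Nat.card {a : A // a ^ p = 1} ≤ p ^ k →
  ∀ (Q : Type) [Group Q] [Finite Q] (ρ : Q →* MulAut A), Function.Injective ρ → IsPGroup p Q →
    GenBy Q (g k)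

/-- TASK RANK: `p`-groups that need many generators contain large elementary abelian subgroups. -/
def RANK : Prop := ∃ f : ℕ → ℕ, ∀ (s p : ℕ) [Fact p.Prime] (P : Type) [Group P] [Finite P],
  IsPGroup p P →
  GenBy P (f s) ∨ ∃ E : Subgroup P, (∀ a ∈ E, ∀ b ∈ E, a * b = b * a) ∧ (∀ a ∈ E, a ^ p = 1) ∧
    Nat.card E = p ^ s

def TaskRANK : Prop := TaskMAX → TaskABEL → TaskAUT → RANK

end Pool.Agent.H43R3.DG
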