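import Pool.Agent.H43R3.DG.Asm
import Pool.Agent.H43R3.DG.T_ABEL
import Pool.Agent.H43R3.DG.T_SYL
import Pool.Agent.H658R3.DG_MAX
import Pool.Agent.H888R3.DG.T_AVG
import Pool.Agent.H948R3.DG_Rank
import Pool.Agent.H773.DG.Aut

/-!
# Project H43-DG: the full theorem
-/

set_option autoImplicit false

namespace Pool.Agent.H43R3.DG

theorem full (ε : ℝ) (hε : 0 < ε) :
    ∃ N : ℕ, ∀ (G : Type) [Group G] [Finite G],
    (∀ S : Finset G, Subgroup.closure (S : Set G) = ⊤ → N ≤ S.card) →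
    ∃ (V : Type) (_ : Finite V) (X : SimpleGraph V), Nonempty ((X ≃g X) ≃* G) ∧
      (Nat.card V : ℝ) < ε * Nat.card G :=
  mainD Pool.Agent.H888R3.DG.avg taskSYL
    (Pool.Agent.H948R3.DG.taskRANK Pool.Agent.H658R3.DGMAX.taskMAX ABEL.taskABEL
      (Pool.Agent.H773.DG.taskAUT ABEL.taskABEL)) ε hε

end Pool.Agent.H43R3.DG
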